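import Mathlib

/-! Derivations of words in context-free grammars, with a bound on the height. -/

set_option autoImplicit false

namespace Pool.Agent.H639R2.NF

variable {T : Type} {g : ContextFreeGrammar T}

inductive DN (g : ContextFreeGrammar T) : ℕ → List (Symbol T g.NT) → List T → Prop
  | nil (n : ℕ) : DN g n [] []
  | ter {n : ℕ} {u : List (Symbol T g.NT)} {w : List T} (a : T) :
      DN g n u w → DN g n (.terminal a :: u) (a :: w)
  | nt {n : ℕ} {r : ContextFreeRule T g.NT} {u : List (Symbol T g.NT)} {w1 w2 : List T} :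
      r ∈ g.rules → DN g n r.output w1 → DN g (n + 1) u w2 →
      DN g (n + 1) (.nonterminal r.input :: u) (w1 ++ w2)

theorem DN.succ {n : ℕ} {u : List (Symbol T g.NT)} {w : List T} (h : DN g n u w) :
    DN g (n + 1) u w := by
  induction h with
  | nil n => exact DN.nil _
  | ter a _ ih => exact DN.ter a ih
  | nt hx _ _ ih1 ih2 => exact DN.nt hx ih1 ih2

theorem DN.mono {n m : ℕ} {u : List (Symbol T g.NT)} {w : List T} (h : DN g n u w) (hnm : n ≤ m) :
    DN g m u w := by
  induction hnm with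
  | refl => exact h
  | step _ ih => exact ih.succ

theorem DN.append {n : ℕ} {u v : List (Symbol T g.NT)} {w1 w2 : List T} (h1 : DN g n u w1)
    (h2 : DN g n v w2) : DN g n (u ++ v) (w1 ++ w2) := by
  induction h1 with
  | nil n => exact h2
  | ter a _ ih => exact DN.ter a (ih h2)
  | nt hx hd _ _ ih2 =>
    rw [List.append_assoc]
    exact DN.nt hx hd (ih2 h2)

theorem DN.split {n : ℕ} {u v : List (Symbol T g.NT)} {w : List T} (h : DN g n (u ++ v) w) :
    ∃ w1 w2, w = w1 ++ w2 ∧ DN g n u w1 ∧ DN g n v w2 := by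
  induction u generalizing w with
  | nil => exact ⟨[], w, rfl, DN.nil _, h⟩
  | cons z u ih =>
    rw [List.cons_append] at h
    cases h with
    | ter a h =>
      obtain ⟨w1, w2, rfl, h1, h2⟩ := ih h
      exact ⟨a :: w1, w2, rfl, DN.ter a h1, h2⟩
    | nt hx hd h =>
      rename_i n r w1 w2
      obtain ⟨w3, w4, rfl, h1, h2⟩ := ih h
      exact ⟨w1 ++ w3, w4, by rw [List.append_assoc], DN.nt hx hd h1, h2⟩

theorem DN.cons_split {n : ℕ} {z : Symbol T g.NT} {v : List (Symbol T g.NT)} {w : List T}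
    (h : DN g n (z :: v) w) :
    ∃ w1 w2, w = w1 ++ w2 ∧ DN g n [z] w1 ∧ DN g n v w2 :=
  DN.split (u := [z]) h

theorem DN.single_inv {n : ℕ} {q : g.NT} {w : List T} (h : DN g n [.nonterminal q] w) :
    ∃ m, ∃ r ∈ g.rules, n = m + 1 ∧ r.input = q ∧ DN g m r.output w := by
  cases h with
  | nt hx hd h =>
    cases h
    exact ⟨_, _, hx, rfl, rfl, by simpa using hd⟩

theorem DN.ter_inv {n : ℕ} {a : T} {w : List T} (h : DN g n [.terminal a] w) : w = [a] := by
  cases h with
  | ter _ h => cases h; rfl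

theorem DN.of_ters (w : List T) : DN g 0 (w.map .terminal) w := by
  induction w with
  | nil => exact DN.nil _
  | cons a w ih => exact DN.ter a ih

theorem DN.of_produces {u v : List (Symbol T g.NT)} (hs : g.Produces u v) {n : ℕ} {w : List T}
    (h : DN g n v w) : DN g (n + 1) u w := by
  obtain ⟨r, hr, h1⟩ := hs
  obtain ⟨p, q, rfl, rfl⟩ := h1.exists_parts
  obtain ⟨w1, w2, rfl, h1, h2⟩ := h.split
  obtain ⟨w3, w4, rfl, h3, h4⟩ := h1.split
  rw [List.append_assoc, List.append_assoc]
  exact h3.succ.append (DN.nt hr h4 h2.succ)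

theorem derives_of_DN {n : ℕ} {u : List (Symbol T g.NT)} {w : List T} (h : DN g n u w) :
    g.Derives u (w.map .terminal) := by
  induction h with
  | nil n => exact Relation.ReflTransGen.refl
  | ter a _ ih =>
    exact ContextFreeGrammar.Derives.append_left ih [Symbol.terminal a]
  | @nt n r u w1 w2 hr _ _ ih1 ih2 =>
    have h1 : g.Produces (.nonterminal r.input :: u) (r.output ++ u) :=
      ⟨r, hr, ContextFreeRule.Rewrites.head u⟩
    rw [List.map_append]
    exact (Relation.ReflTransGen.single h1).trans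
      ((ContextFreeGrammar.Derives.append_right ih1 u).trans
        (ContextFreeGrammar.Derives.append_left ih2 _))

theorem derives_iff {u : List (Symbol T g.NT)} {w : List T} :
    g.Derives u (w.map .terminal) ↔ ∃ n, DN g n u w := by
  constructor
  · intro h
    generalize hv : w.map Symbol.terminal = v at h
    induction h using Relation.ReflTransGen.head_induction_on with
    | refl => subst hv; exact ⟨0, DN.of_ters w⟩
    | head h1 _ ih =>
      obtain ⟨n, hn⟩ := ih
      exact ⟨n + 1, DN.of_produces h1 hn⟩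
  · rintro ⟨n, h⟩
    exact derives_of_DN h

/-- words derived from a form -/
def DW (g : ContextFreeGrammar T) (u : List (Symbol T g.NT)) (w : List T) : Prop :=
  ∃ n, DN g n u w

theorem mem_language {w : List T} : w ∈ g.language ↔ DW g [.nonterminal g.initial] w := by
  rw [ContextFreeGrammar.mem_language_iff, derives_iff]; rfl

theorem DW.append {u v : List (Symbol T g.NT)} {w1 w2 : List T} (h1 : DW g u w1)
    (h2 : DW g v w2) : DW g (u ++ v) (w1 ++ w2) := by
  obtain ⟨n, h1⟩ := h1
  obtain ⟨m, h2⟩ := h2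
  exact ⟨max n m, (h1.mono (le_max_left _ _)).append (h2.mono (le_max_right _ _))⟩

theorem DW.single {r : ContextFreeRule T g.NT} (hr : r ∈ g.rules) {w : List T}
    (h : DW g r.output w) : DW g [.nonterminal r.input] w := by
  obtain ⟨n, h⟩ := h
  refine ⟨n + 1, ?_⟩
  have := DN.nt hr h (DN.nil (n + 1))
  rwa [List.append_nil] at this

theorem DW.of_ters (w : List T) : DW g (w.map .terminal) w := ⟨0, DN.of_ters w⟩

/-! ### systems of languages with binary splitting -/

/-- A finite family of languages of nonempty words in which words split. -/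
structure Sys (T : Type) where
  B : Type
  fin : Finite B
  La : B → List T → Prop
  ne : ∀ b w, La b w → w ≠ []
  sp : ∀ b w, La b w → 2 ≤ w.length → ∃ b1 b2 x1 x2, w = x1 ++ x2 ∧ La b1 x1 ∧ La b2 x2 ∧
    ∀ y1 y2, La b1 y1 → La b2 y2 → La b (y1 ++ y2)

theorem exists_sys (g : ContextFreeGrammar T) :
    ∃ (S : Sys T) (b : S.B), ∀ w, S.La b w ↔ w ∈ g.language ∧ w ≠ [] := by
  classical
  let F : Set (List (Symbol T g.NT)) :=
    {φ | φ = [.nonterminal g.initial] ∨ φ = [] ∨
      ∃ r ∈ g.rules, φ <:+ r.output ∨ ∃ X ∈ r.output, φ = [X]}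
  have hF : F.Finite := by
    have h1 : F ⊆ {[.nonterminal g.initial]} ∪ ({[]} ∪ ⋃ r ∈ g.rules,
        ({φ | φ ∈ r.output.tails} ∪ {φ | φ ∈ r.output.map (fun X => [X])})) := by
      rintro φ (rfl | rfl | ⟨r, hr, h | ⟨X, hX, rfl⟩⟩)
      · left; rfl
      · right; left; rfl
      · right; right
        simp only [Set.mem_iUnion]
        exact ⟨r, hr, Or.inl ((List.mem_tails _ _).2 h)⟩
      · right; right
        simp only [Set.mem_iUnion]
        exact ⟨r, hr, Or.inr (List.mem_map.2 ⟨X, hX, rfl⟩)⟩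
    refine Set.Finite.subset ?_ h1
    refine (Set.finite_singleton _).union ((Set.finite_singleton _).union ?_)
    refine Set.Finite.biUnion (Finset.finite_toSet _) ?_
    intro r _
    exact (List.finite_toSet _).union (List.finite_toSet _)
  have htail : ∀ z φ, (z :: φ) ∈ F → φ ∈ F := by
    rintro z φ (h | h | ⟨r, hr, h | ⟨X, hX, h⟩⟩)
    · simp only [List.cons.injEq] at h
      rw [h.2]; exact Or.inr (Or.inl rfl)
    · simp at h
    · exact Or.inr (Or.inr ⟨r, hr, Or.inl ((List.suffix_cons _ _).trans h)⟩)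
    · simp only [List.cons.injEq] at h
      rw [h.2]; exact Or.inr (Or.inl rfl)
  have hhead : ∀ z φ, (z :: φ) ∈ F → [z] ∈ F := by
    rintro z φ (h | h | ⟨r, hr, h | ⟨X, hX, h⟩⟩)
    · simp only [List.cons.injEq] at h
      rw [h.1]; exact Or.inl rfl
    · simp at h
    · refine Or.inr (Or.inr ⟨r, hr, Or.inr ⟨z, h.subset List.mem_cons_self, rfl⟩⟩)
    · simp only [List.cons.injEq] at h
      rw [h.1]; exact Or.inr (Or.inr ⟨r, hr, Or.inr ⟨X, hX, rfl⟩⟩)
  have hout : ∀ r ∈ g.rules, r.output ∈ F := fun r hr =>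
    Or.inr (Or.inr ⟨r, hr, Or.inl List.suffix_rfl⟩)
  let B := {φ // φ ∈ F}
  have key : ∀ (n : ℕ) (φ : List (Symbol T g.NT)) (hφ : φ ∈ F) (w : List T), DN g n φ w →
      2 ≤ w.length → ∃ (b1 b2 : B) (x1 x2 : List T), w = x1 ++ x2 ∧ (DW g b1.1 x1 ∧ x1 ≠ []) ∧
        (DW g b2.1 x2 ∧ x2 ≠ []) ∧
        ∀ y1 y2, (DW g b1.1 y1 ∧ y1 ≠ []) → (DW g b2.1 y2 ∧ y2 ≠ []) →
          (DW g φ (y1 ++ y2) ∧ y1 ++ y2 ≠ []) := by
    intro n
    induction n with
    | zero =>
      intro φ
      induction φ with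
      | nil => intro _ w h hw; cases h; simp at hw
      | cons z φ ih =>
        intro hφ w h hw
        obtain ⟨w1, w2, rfl, h1, h2⟩ := h.cons_split
        cases z with
        | nonterminal q =>
          obtain ⟨m, r, _, h0, _⟩ := h1.single_inv
          omega
        | terminal a =>
          obtain rfl := h1.ter_inv
          refine ⟨⟨[.terminal a], hhead _ _ hφ⟩, ⟨φ, htail _ _ hφ⟩, [a], w2, rfl, ⟨⟨_, h1⟩, by simp⟩,
            ⟨⟨_, h2⟩, ?_⟩, ?_⟩
          · rintro rfl; simp at hw
          · rintro y1 y2 ⟨hy1, hy1'⟩ ⟨hy2, _⟩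
            exact ⟨hy1.append hy2, by simp [hy1']⟩
    | succ n ihn =>
      intro φ
      induction φ with
      | nil => intro _ w h hw; cases h; simp at hw
      | cons z φ ih =>
        intro hφ w h hw
        obtain ⟨w1, w2, rfl, h1, h2⟩ := h.cons_split
        by_cases hw1 : w1 = []
        · subst hw1
          obtain ⟨b1, b2, x1, x2, hx, hx1, hx2, hx3⟩ := ih (htail _ _ hφ) w2 h2 (by simpa using hw)
          refine ⟨b1, b2, x1, x2, by simpa using hx, hx1, hx2, ?_⟩
          intro y1 y2 hy1 hy2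
          obtain ⟨h3, h4⟩ := hx3 y1 y2 hy1 hy2
          exact ⟨DW.append (u := [z]) (w1 := []) ⟨_, h1⟩ h3, h4⟩
        by_cases hw2 : w2 = []
        · subst hw2
          rw [List.append_nil] at hw ⊢
          cases z with
          | terminal a =>
            obtain rfl := h1.ter_inv
            simp at hw
          | nonterminal q =>
            obtain ⟨m, r, hr, h0, rfl, h3⟩ := h1.single_inv
            obtain rfl : n = m := by omega
            obtain ⟨b1, b2, x1, x2, hx, hx1, hx2, hx3⟩ := ihn _ (hout r hr) w1 h3 hw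
            refine ⟨b1, b2, x1, x2, hx, hx1, hx2, ?_⟩
            intro y1 y2 hy1 hy2
            obtain ⟨h4, h5⟩ := hx3 y1 y2 hy1 hy2
            refine ⟨?_, h5⟩
            have := DW.append (u := [.nonterminal r.input]) (DW.single hr h4) (v := φ) (w2 := [])
              ⟨_, h2⟩
            simpa using this
        · refine ⟨⟨[z], hhead _ _ hφ⟩, ⟨φ, htail _ _ hφ⟩, w1, w2, rfl, ⟨⟨_, h1⟩, hw1⟩,
            ⟨⟨_, h2⟩, hw2⟩, ?_⟩
          rintro y1 y2 ⟨hy1, hy1'⟩ ⟨hy2, _⟩
          exact ⟨DW.append (u := [z]) hy1 hy2, by simp [hy1']⟩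
  refine ⟨⟨B, hF, fun b w => DW g b.1 w ∧ w ≠ [], fun b w h => h.2, ?_⟩,
    ⟨[.nonterminal g.initial], Or.inl rfl⟩, ?_⟩
  · rintro ⟨φ, hφ⟩ w ⟨⟨n, hw⟩, _⟩ h2
    exact key n φ hφ w hw h2
  · intro w
    show (DW g _ w ∧ w ≠ []) ↔ _
    rw [mem_language]

end Pool.Agent.H639R2.NF
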