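import Pool.Agent.H639R2.NF.Der

/-! The system of languages extended by the languages of left and right spines; forms. -/

set_option autoImplicit false

namespace Pool.Agent.H639R2.NF

variable {T : Type}

def Sys.R (S : Sys T) (b b1 b2 : S.B) : Prop :=
  ∀ y1 y2, S.La b1 y1 → S.La b2 y2 → S.La b (y1 ++ y2)

inductive LL (S : Sys T) : S.B → S.B → List T → Prop
  | one {b b' b2 : S.B} {y : List T} : S.R b b' b2 → S.La b2 y → LL S b b' y
  | snoc {b b' b'' b2 : S.B} {y1 y2 : List T} : S.R b b'' b2 → LL S b'' b' y1 → S.La b2 y2 →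
      LL S b b' (y1 ++ y2)

inductive RR (S : Sys T) : S.B → S.B → List T → Prop
  | one {b b' b2 : S.B} {y : List T} : S.R b b2 b' → S.La b2 y → RR S b b' y
  | cons {b b' b'' b2 : S.B} {y1 y2 : List T} : S.R b b2 b'' → RR S b'' b' y1 → S.La b2 y2 →
      RR S b b' (y2 ++ y1)

/-- the reversed system -/
def Sys.rev (S : Sys T) : Sys T where
  B := S.B
  fin := S.fin
  La b w := S.La b w.reverse
  ne b w h hw := S.ne b _ h (by simp [hw])
  sp b w h hw := by
    obtain ⟨b1, b2, x1, x2, h1, h2, h3, h4⟩ := S.sp b w.reverse h (by simpa using hw)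
    refine ⟨b2, b1, x2.reverse, x1.reverse, ?_, by simpa using h3, by simpa using h2, ?_⟩
    · rw [← List.reverse_append, ← h1, List.reverse_reverse]
    · intro y1 y2 hy1 hy2
      rw [List.reverse_append]
      exact h4 _ _ hy2 hy1

variable {S : Sys T}

theorem rev_R {b b1 b2 : S.B} (h : S.R b b1 b2) : S.rev.R b b2 b1 := by
  intro y1 y2 h1 h2
  show S.La b (y1 ++ y2).reverse
  rw [List.reverse_append]
  exact h _ _ h2 h1

theorem R_of_rev {b b1 b2 : S.B} (h : S.rev.R b b2 b1) : S.R b b1 b2 := by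
  intro y1 y2 h1 h2
  have := h y2.reverse y1.reverse (by show S.La _ _; simpa using h2) (by show S.La _ _; simpa using h1)
  have h3 : S.La b (y2.reverse ++ y1.reverse).reverse := this
  simpa using h3

theorem RR_of_LL_rev {b b' : S.rev.B} {y : List T} (h : LL S.rev b b' y) : RR S b b' y.reverse := by
  induction h with
  | one h1 h2 => exact RR.one (R_of_rev h1) h2
  | snoc h1 _ h3 ih =>
    rw [List.reverse_append]
    exact RR.cons (R_of_rev h1) ih h3

theorem LL_of_RR_rev {b b' : S.rev.B} {y : List T} (h : RR S.rev b b' y) : LL S b b' y.reverse := by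
  induction h with
  | one h1 h2 => exact LL.one (R_of_rev h1) h2
  | cons h1 _ h3 ih =>
    rw [List.reverse_append]
    exact LL.snoc (R_of_rev h1) ih h3

theorem LL_rev_of_RR {b b' : S.B} {y : List T} (h : RR S b b' y) : LL S.rev b b' y.reverse := by
  induction h with
  | one h1 h2 => exact LL.one (rev_R h1) (by show S.La _ _; simpa using h2)
  | cons h1 _ h3 ih =>
    rw [List.reverse_append]
    exact LL.snoc (rev_R h1) ih (by show S.La _ _; simpa using h3)

theorem RR_rev_of_LL {b b' : S.B} {y : List T} (h : LL S b b' y) : RR S.rev b b' y.reverse := by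
  induction h with
  | one h1 h2 => exact RR.one (rev_R h1) (by show S.La _ _; simpa using h2)
  | snoc h1 _ h3 ih =>
    rw [List.reverse_append]
    exact RR.cons (rev_R h1) ih (by show S.La _ _; simpa using h3)

theorem La_of_LL {b b' : S.B} {x y : List T} (h : LL S b b' y) (hx : S.La b' x) :
    S.La b (x ++ y) := by
  induction h generalizing x with
  | one h1 h2 => exact h1 _ _ hx h2
  | snoc h1 _ h3 ih =>
    rw [← List.append_assoc]
    exact h1 _ _ (ih hx) h3

theorem LL.bot {b b' b'' b2 : S.B} {y1 y2 : List T} (hR : S.R b'' b' b2) (h1 : S.La b2 y1)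
    (h2 : LL S b b'' y2) : LL S b b' (y1 ++ y2) := by
  induction h2 generalizing y1 with
  | one h3 h4 => exact LL.snoc h3 (LL.one hR h1) h4
  | snoc h3 _ h5 ih =>
    rw [← List.append_assoc]
    exact LL.snoc h3 (ih hR h1) h5

theorem LL.bot_inv {b b' : S.B} {y : List T} (h : LL S b b' y) :
    (∃ b2, S.R b b' b2 ∧ S.La b2 y) ∨ (∃ b'' b2 y1 y2, S.R b'' b' b2 ∧ S.La b2 y1 ∧
      LL S b b'' y2 ∧ y = y1 ++ y2) := by
  induction h with
  | one h1 h2 => exact Or.inl ⟨_, h1, h2⟩
  | @snoc b b' b'' b2 y1 y2 h1 h2 h3 ih =>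
    right
    rcases ih with ⟨b3, h4, h5⟩ | ⟨c, b3, z1, z2, h4, h5, h6, rfl⟩
    · exact ⟨b'', b3, y1, y2, h4, h5, LL.one h1 h3, rfl⟩
    · exact ⟨c, b3, z1, z2 ++ y2, h4, h5, LL.snoc h1 h6 h3, by simp⟩

theorem left_La : ∀ (n : ℕ) (b : S.B) (w : List T), w.length = n → S.La b w →
    (∃ c, w = [c]) ∨ (∃ c b' y, w = c :: y ∧ S.La b' [c] ∧ LL S b b' y) := by
  intro n
  induction n using Nat.strong_induction_on with
  | _ n ih =>
    intro b w hn hw
    by_cases h2 : 2 ≤ w.length
    · right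
      obtain ⟨b1, b2, x1, x2, rfl, h3, h4, h5⟩ := S.sp b w hw h2
      have hx2 : x2.length ≠ 0 := by
        intro h; exact S.ne _ _ h4 (List.eq_nil_of_length_eq_zero h)
      rw [List.length_append] at hn
      rcases ih x1.length (by omega) b1 x1 rfl h3 with ⟨c, rfl⟩ | ⟨c, b', y, rfl, h6, h7⟩
      · exact ⟨c, b1, x2, rfl, h3, LL.one h5 h4⟩
      · exact ⟨c, b', y ++ x2, rfl, h6, LL.snoc h5 h7 h4⟩
    · left
      have h0 : w.length ≠ 0 := by
        intro h; exact S.ne _ _ hw (List.eq_nil_of_length_eq_zero h)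
      exact List.length_eq_one_iff.1 (by omega)

theorem right_La (b : S.B) (w : List T) (h : S.La b w) :
    (∃ c, w = [c]) ∨ (∃ c b' y, w = y ++ [c] ∧ S.La b' [c] ∧ RR S b b' y) := by
  have h1 : S.rev.La b w.reverse := by show S.La _ _; simpa using h
  rcases left_La _ _ _ rfl h1 with ⟨c, hc⟩ | ⟨c, b', y, h2, h3, h4⟩
  · left
    refine ⟨c, ?_⟩
    have := congrArg List.reverse hc
    simpa using this
  · right
    refine ⟨c, b', y.reverse, ?_, ?_, RR_of_LL_rev h4⟩
    · have := congrArg List.reverse h2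
      simpa using this
    · have h5 : S.La b' [c].reverse := h3
      simpa using h5

theorem La_of_RR {b b' : S.B} {x y : List T} (h : RR S b b' y) (hx : S.La b' x) :
    S.La b (y ++ x) := by
  have h1 := La_of_LL (LL_rev_of_RR h) (x := x.reverse) (by show S.La _ _; simpa using hx)
  have h2 : S.La b (x.reverse ++ y.reverse).reverse := h1
  simpa using h2

/-! ### entries and forms -/

inductive En (B T : Type) : Type
  | b (x : B)
  | l (x y : B)
  | r (x y : B)
  | t (c : T)

instance {B T : Type} [Finite B] [Finite T] : Finite (En B T) := by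
  refine Finite.of_injective (fun s : En B T => match s with
    | .b x => (Sum.inl (Sum.inl x) : (B ⊕ (B × B)) ⊕ ((B × B) ⊕ T))
    | .l x y => Sum.inl (Sum.inr (x, y))
    | .r x y => Sum.inr (Sum.inl (x, y))
    | .t c => Sum.inr (Sum.inr c)) ?_
  intro x y h
  cases x <;> cases y <;> simp_all

def sem (S : Sys T) : En S.B T → List T → Prop
  | .b x, w => S.La x w
  | .l x y, w => LL S x y w
  | .r x y, w => RR S x y w
  | .t c, w => w = [c]

inductive FL (S : Sys T) : List (En S.B T) → List T → Prop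
  | nil : FL S [] []
  | cons {e : En S.B T} {γ : List (En S.B T)} {x w : List T} : sem S e x → FL S γ w →
      FL S (e :: γ) (x ++ w)

theorem LL_ne {b b' : S.B} {y : List T} (h : LL S b b' y) : y ≠ [] := by
  induction h with
  | one _ h2 => exact S.ne _ _ h2
  | snoc _ _ h3 _ => intro h; exact S.ne _ _ h3 (List.append_eq_nil_iff.1 h).2

theorem RR_ne {b b' : S.B} {y : List T} (h : RR S b b' y) : y ≠ [] := by
  intro h1
  exact LL_ne (LL_rev_of_RR h) (by simp [h1])

theorem sem_ne {e : En S.B T} {w : List T} (h : sem S e w) : w ≠ [] := by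
  cases e with
  | b x => exact S.ne _ _ h
  | l x y => exact LL_ne h
  | r x y => exact RR_ne h
  | t c => rw [show w = [c] from h]; simp

/-- splitting of entries -/
def SP (S : Sys T) (e : En S.B T) (w : List T) : Prop :=
  ∃ e1 e2 x1 x2, w = x1 ++ x2 ∧ sem S e1 x1 ∧ sem S e2 x2 ∧
    ∀ y1 y2, sem S e1 y1 → sem S e2 y2 → sem S e (y1 ++ y2)

theorem sem_sp (e : En S.B T) (w : List T) (h : sem S e w) (hw : 2 ≤ w.length) : SP S e w := by
  cases e with
  | b x =>
    obtain ⟨b1, b2, x1, x2, h1, h2, h3, h4⟩ := S.sp x w h hw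
    exact ⟨.b b1, .b b2, x1, x2, h1, h2, h3, h4⟩
  | l b b' =>
    have h' : LL S b b' w := h
    cases h' with
    | @one _ _ b2 _ h1 h2 =>
      obtain ⟨b3, b4, x1, x2, h3, h4, h5, h6⟩ := S.sp b2 w h2 hw
      exact ⟨.b b3, .b b4, x1, x2, h3, h4, h5, fun y1 y2 hy1 hy2 => LL.one h1 (h6 _ _ hy1 hy2)⟩
    | @snoc _ _ b'' b2 y1 y2 h1 h2 h3 =>
      exact ⟨.l b'' b', .b b2, y1, y2, rfl, h2, h3, fun z1 z2 hz1 hz2 => LL.snoc h1 hz1 hz2⟩
  | r b b' =>
    have h' : RR S b b' w := h
    cases h' with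
    | @one _ _ b2 _ h1 h2 =>
      obtain ⟨b3, b4, x1, x2, h3, h4, h5, h6⟩ := S.sp b2 w h2 hw
      exact ⟨.b b3, .b b4, x1, x2, h3, h4, h5, fun y1 y2 hy1 hy2 => RR.one h1 (h6 _ _ hy1 hy2)⟩
    | @cons _ _ b'' b2 y1 y2 h1 h2 h3 =>
      exact ⟨.b b2, .r b'' b', y2, y1, rfl, h3, h2, fun z1 z2 hz1 hz2 => RR.cons h1 hz2 hz1⟩
  | t c =>
    rw [show w = [c] from h] at hw
    simp at hw

theorem FL_one {e : En S.B T} {w : List T} : FL S [e] w ↔ sem S e w := by
  constructor
  · intro h
    cases h with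
    | cons h1 h2 => cases h2; simpa using h1
  · intro h
    simpa using FL.cons h FL.nil

theorem FL.append {γ γ' : List (En S.B T)} {w w' : List T} (h : FL S γ w) (h' : FL S γ' w') :
    FL S (γ ++ γ') (w ++ w') := by
  induction h with
  | nil => exact h'
  | cons h1 _ ih =>
    rw [List.append_assoc]
    exact FL.cons h1 ih

theorem FL.split {γ γ' : List (En S.B T)} {w : List T} (h : FL S (γ ++ γ') w) :
    ∃ w1 w2, w = w1 ++ w2 ∧ FL S γ w1 ∧ FL S γ' w2 := by
  induction γ generalizing w with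
  | nil => exact ⟨[], w, rfl, FL.nil, h⟩
  | cons e γ ih =>
    cases h with
    | cons h1 h2 =>
      obtain ⟨w1, w2, rfl, h3, h4⟩ := ih h2
      exact ⟨_ ++ w1, w2, by rw [List.append_assoc], FL.cons h1 h3, h4⟩

theorem FL_length {γ : List (En S.B T)} {w : List T} (h : FL S γ w) : γ.length ≤ w.length := by
  induction h with
  | nil => simp
  | cons h1 _ ih =>
    have := sem_ne h1
    have h3 : (_ : List T).length ≠ 0 := fun h => this (List.eq_nil_of_length_eq_zero h)
    rw [List.length_cons, List.length_append]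
    omega

theorem FL_ters {u : List T} : FL S (u.map .t) u := by
  induction u with
  | nil => exact FL.nil
  | cons c u ih => exact FL.cons (x := [c]) (show [c] = [c] from rfl) ih

theorem FL_ters_inv {u w : List T} (h : FL S (u.map .t) w) : w = u := by
  induction u generalizing w with
  | nil => cases h; rfl
  | cons c u ih =>
    cases h with
    | cons h1 h2 =>
      rw [ih h2]
      rw [show _ = [c] from h1]
      rfl

theorem FL_t_cons {c : T} {γ : List (En S.B T)} {w : List T} :
    FL S (.t c :: γ) w ↔ ∃ w', w = c :: w' ∧ FL S γ w' := by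
  constructor
  · intro h
    cases h with
    | @cons _ _ x w' h1 h2 =>
      rw [show x = [c] from h1]
      exact ⟨w', rfl, h2⟩
  · rintro ⟨w', rfl, h⟩
    exact FL.cons (x := [c]) (show [c] = [c] from rfl) h

/-- `γ'` refines `γ` -/
def Ref (S : Sys T) (γ γ' : List (En S.B T)) : Prop := ∀ w, FL S γ' w → FL S γ w

theorem Ref.refl (γ : List (En S.B T)) : Ref S γ γ := fun _ h => h

theorem Ref.trans {γ γ' γ'' : List (En S.B T)} (h1 : Ref S γ γ') (h2 : Ref S γ' γ'') :
    Ref S γ γ'' := fun w h => h1 w (h2 w h)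

theorem Ref.append {γ γ' δ δ' : List (En S.B T)} (h1 : Ref S γ γ') (h2 : Ref S δ δ') :
    Ref S (γ ++ δ) (γ' ++ δ') := by
  intro w h
  obtain ⟨w1, w2, rfl, h3, h4⟩ := h.split
  exact (h1 _ h3).append (h2 _ h4)

theorem Ref.cons {γ γ' : List (En S.B T)} (e : En S.B T) (h : Ref S γ γ') :
    Ref S (e :: γ) (e :: γ') := Ref.append (γ := [e]) (Ref.refl [e]) h

/-- exposing the first letter of an entry -/
theorem expL (e : En S.B T) (w : List T) (h : sem S e w) :
    ∃ c δ, δ.length ≤ 2 ∧ FL S (.t c :: δ) w ∧ Ref S [e] (.t c :: δ) := by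
  -- a word of a base language
  have hb : ∀ (b : S.B) (w : List T), S.La b w → ∃ c δ, δ.length ≤ 1 ∧ FL S (.t c :: δ) w ∧
      ∀ w', FL S (.t c :: δ) w' → S.La b w' := by
    intro b w h
    rcases left_La _ b w rfl h with ⟨c, rfl⟩ | ⟨c, b', y, rfl, h1, h2⟩
    · refine ⟨c, [], by simp, FL_t_cons.2 ⟨[], rfl, FL.nil⟩, ?_⟩
      intro w' h'
      rw [FL_t_cons] at h'
      obtain ⟨w'', rfl, h''⟩ := h'
      cases h''
      exact h
    · refine ⟨c, [.l b b'], by simp, FL_t_cons.2 ⟨y, rfl, FL_one.2 h2⟩, ?_⟩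
      intro w' h'
      rw [FL_t_cons] at h'
      obtain ⟨w'', rfl, h''⟩ := h'
      rw [FL_one] at h''
      exact La_of_LL (x := [c]) h'' h1
  cases e with
  | b x =>
    obtain ⟨c, δ, h1, h2, h3⟩ := hb x w h
    exact ⟨c, δ, by omega, h2, fun w' h' => FL_one.2 (h3 _ h')⟩
  | t c =>
    refine ⟨c, [], by simp, FL_t_cons.2 ⟨[], h, FL.nil⟩, Ref.refl _⟩
  | l b b' =>
    have h' : LL S b b' w := h
    rcases h'.bot_inv with ⟨b2, h1, h2⟩ | ⟨b'', b2, y1, y2, h1, h2, h3, rfl⟩
    · obtain ⟨c, δ, h4, h5, h6⟩ := hb b2 w h2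
      exact ⟨c, δ, by omega, h5, fun w' hw' => FL_one.2 (LL.one h1 (h6 _ hw'))⟩
    · obtain ⟨c, δ, h4, h5, h6⟩ := hb b2 y1 h2
      refine ⟨c, δ ++ [.l b b''], by simp; omega, ?_, ?_⟩
      · exact FL.append (γ := .t c :: δ) h5 (FL_one.2 h3)
      · intro w' hw'
        obtain ⟨w1, w2, rfl, h7, h8⟩ := FL.split (γ := .t c :: δ) hw'
        rw [FL_one] at h8 ⊢
        exact LL.bot h1 (h6 _ h7) h8
  | r b b' =>
    have h' : RR S b b' w := h
    cases h' with
    | @one _ _ b2 _ h1 h2 =>
      obtain ⟨c, δ, h4, h5, h6⟩ := hb b2 w h2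
      exact ⟨c, δ, by omega, h5, fun w' hw' => FL_one.2 (RR.one h1 (h6 _ hw'))⟩
    | @cons _ _ b'' b2 y1 y2 h1 h2 h3 =>
      obtain ⟨c, δ, h4, h5, h6⟩ := hb b2 y2 h3
      refine ⟨c, δ ++ [.r b'' b'], by simp; omega, ?_, ?_⟩
      · exact FL.append (γ := .t c :: δ) h5 (FL_one.2 h2)
      · intro w' hw'
        obtain ⟨w1, w2, rfl, h7, h8⟩ := FL.split (γ := .t c :: δ) hw'
        rw [FL_one] at h8 ⊢
        exact RR.cons h1 h8 (h6 _ h7)

/-- reversal of entries -/
def sw (S : Sys T) : En S.B T → En S.rev.B T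
  | .b x => .b x
  | .l x y => .r x y
  | .r x y => .l x y
  | .t c => .t c

def sw' (S : Sys T) : En S.rev.B T → En S.B T
  | .b x => .b x
  | .l x y => .r x y
  | .r x y => .l x y
  | .t c => .t c

theorem sem_sw {e : En S.B T} {w : List T} (h : sem S e w) : sem S.rev (sw S e) w.reverse := by
  cases e with
  | b x => show S.La _ _; simpa [sem] using h
  | l x y => exact RR_rev_of_LL h
  | r x y => exact LL_rev_of_RR h
  | t c => rw [show w = [c] from h]; rfl

theorem sem_sw' {e : En S.rev.B T} {w : List T} (h : sem S.rev e w) :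
    sem S (sw' S e) w.reverse := by
  cases e with
  | b x => exact h
  | l x y => exact RR_of_LL_rev h
  | r x y => exact LL_of_RR_rev h
  | t c => rw [show w = [c] from h]; rfl

theorem FL_sw {γ : List (En S.B T)} {w : List T} (h : FL S γ w) :
    FL S.rev (γ.map (sw S)).reverse w.reverse := by
  induction h with
  | nil => exact FL.nil
  | cons h1 _ ih =>
    rw [List.map_cons, List.reverse_cons, List.reverse_append]
    exact ih.append (FL_one.2 (sem_sw h1))

theorem FL_sw' {γ : List (En S.rev.B T)} {w : List T} (h : FL S.rev γ w) :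
    FL S (γ.map (sw' S)).reverse w.reverse := by
  induction h with
  | nil => exact FL.nil
  | cons h1 _ ih =>
    rw [List.map_cons, List.reverse_cons, List.reverse_append]
    exact ih.append (FL_one.2 (sem_sw' h1))

theorem sw_sw' (e : En S.rev.B T) : sw S (sw' S e) = e := by cases e <;> rfl

theorem sw'_sw (e : En S.B T) : sw' S (sw S e) = e := by cases e <;> rfl

theorem expR (e : En S.B T) (w : List T) (h : sem S e w) :
    ∃ c δ, δ.length ≤ 2 ∧ FL S (δ ++ [.t c]) w ∧ Ref S [e] (δ ++ [.t c]) := by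
  obtain ⟨c, δ, h1, h2, h3⟩ := expL (S := S.rev) (sw S e) w.reverse (sem_sw h)
  refine ⟨c, (δ.map (sw' S)).reverse, by simpa using h1, ?_, ?_⟩
  · have h4 := FL_sw' h2
    rw [List.reverse_reverse] at h4
    have e1 : List.map (sw' S) (En.t c :: δ) = .t c :: δ.map (sw' S) := rfl
    rw [e1, List.reverse_cons] at h4
    exact h4
  · intro w' h'
    have h4 := FL_sw h'
    have e1 : (List.map (sw S) ((δ.map (sw' S)).reverse ++ [.t c])).reverse =
        .t c :: δ := by
      rw [List.map_append, List.reverse_append]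
      have : (List.map (sw S) (List.map (sw' S) δ).reverse).reverse = δ := by
        rw [List.map_reverse, List.reverse_reverse, List.map_map]
        conv_rhs => rw [← List.map_id δ]
        apply List.map_congr_left
        intro e _
        exact sw_sw' e
      rw [this]
      rfl
    rw [e1] at h4
    have h5 := FL_sw' (h3 _ h4)
    rw [List.reverse_reverse] at h5
    have e2 : (List.map (sw' S) [sw S e]).reverse = [e] := by
      simp [sw'_sw]
    rw [e2] at h5
    exact h5

end Pool.Agent.H639R2.NF
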