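import Pool.Agent.H639R2.NF.Pump

/-! The grammar in length-faithful form. -/

set_option autoImplicit false

namespace Pool.Agent.H639R2.NF

variable {T : Type}

theorem symbol_finite {T N : Type} [Finite T] [Finite N] : Finite (Symbol T N) := by
  refine Finite.of_injective (fun s : Symbol T N => match s with
    | .terminal t => (Sum.inl t : T ⊕ N)
    | .nonterminal n => Sum.inr n) ?_
  intro x y h
  cases x <;> cases y <;> simp_all

section

variable (S : Sys T) (L : Language T) (i j k M2 M1 : ℕ)

/-- nonterminals -/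
abbrev NN (S : Sys T) (M1 : ℕ) : Type := Option {γ : List (En S.B T) // γ.length ≤ M1}

def Sem : NN S M1 → List T → Prop
  | none, w => w ∈ L
  | some γ, w => FL S γ.1 w

def two {N : Type} (u v z : List T) (B C : N) : List (Symbol T N) :=
  u.map .terminal ++ [.nonterminal B] ++ v.map .terminal ++ [.nonterminal C] ++ z.map .terminal

def Rules : Set (ContextFreeRule T (NN S M1)) :=
  {r | (∃ w : List T, r.output = w.map .terminal ∧ Sem S L M1 r.input w ∧ w.length ≤ M2 ∧
      ∃ x ∈ L, x.length = w.length) ∨
    (∃ (u v z : List T) (B C : NN S M1), u.length = i ∧ v.length = j ∧ z.length = k ∧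
      r.output = two u v z B C ∧
      ∀ y1 y2, Sem S L M1 B y1 → Sem S L M1 C y2 →
        Sem S L M1 r.input (u ++ y1 ++ v ++ y2 ++ z))}

theorem forms_finite [Finite T] : Finite {γ : List (En S.B T) // γ.length ≤ M1} := by
  have : Finite S.B := S.fin
  have h := List.finite_length_lt (En S.B T) (M1 + 1)
  have h2 : {γ : List (En S.B T) | γ.length ≤ M1}.Finite := by
    refine h.subset ?_
    intro γ hγ
    have : γ.length ≤ M1 := hγ
    show γ.length < M1 + 1
    omega
  exact h2

theorem Rules_finite [Finite T] : (Rules S L i j k M2 M1).Finite := by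
  have h1 := forms_finite S M1
  have h2 : Finite (NN S M1) := inferInstance
  have h3 : Finite (Symbol T (NN S M1)) := symbol_finite
  have h4 := List.finite_length_lt (Symbol T (NN S M1)) (M2 + i + j + k + 3)
  refine Set.Finite.of_finite_image (f := fun r => (r.input, r.output)) ?_ ?_
  · refine ((Set.finite_univ (α := NN S M1)).prod h4).subset ?_
    rintro _ ⟨r, hr, rfl⟩
    refine ⟨Set.mem_univ _, ?_⟩
    rcases hr with ⟨w, h5, _, h6, _⟩ | ⟨u, v, z, B, C, hu, hv, hz, h5, _⟩
    · show r.output.length < _
      rw [h5, List.length_map]; omega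
    · show r.output.length < _
      rw [h5]
      simp only [two, List.length_append, List.length_map, List.length_cons, List.length_nil]
      omega
  · intro r _ r' _ h
    cases r; cases r'
    simp only [Prod.mk.injEq] at h
    simp [h]

noncomputable def GG [Finite T] : ContextFreeGrammar T where
  NT := NN S M1
  initial := none
  rules := (Rules_finite S L i j k M2 M1).toFinset

variable {S L i j k M2 M1}

theorem GG_rule [Finite T] {r : ContextFreeRule T (NN S M1)} :
    r ∈ (GG S L i j k M2 M1).rules ↔ r ∈ Rules S L i j k M2 M1 :=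
  Set.Finite.mem_toFinset (Rules_finite S L i j k M2 M1)

theorem DN_ters_inv {g : ContextFreeGrammar T} {n : ℕ} {u : List T} {w : List T}
    (h : DN g n (u.map .terminal) w) : w = u := by
  induction u generalizing w with
  | nil => cases h; rfl
  | cons a u ih =>
    cases h with
    | ter _ h => rw [ih h]

theorem GG_sound [Finite T] : ∀ (n : ℕ) (q : NN S M1) (w : List T),
    DN (GG S L i j k M2 M1) n [.nonterminal q] w → Sem S L M1 q w := by
  intro n
  induction n using Nat.strong_induction_on with
  | _ n ih =>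
    intro q w h
    obtain ⟨m, r, hr, rfl, rfl, h1⟩ := h.single_inv
    have hr' : r ∈ Rules S L i j k M2 M1 := GG_rule.1 hr
    rcases hr' with ⟨w', h5, h6, _, _⟩ | ⟨u, v, z, B, C, hu, hv, hz, h5, h6⟩
    · rw [h5] at h1
      rw [DN_ters_inv h1]
      exact h6
    · rw [h5, two] at h1
      obtain ⟨w1, w2, rfl, h7, h8⟩ := h1.split
      obtain ⟨w3, w4, rfl, h9, h10⟩ := h7.split
      obtain ⟨w5, w6, rfl, h11, h12⟩ := h9.split
      obtain ⟨w7, w8, rfl, h13, h14⟩ := h11.split
      obtain rfl := DN_ters_inv h8
      obtain rfl := DN_ters_inv h12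
      obtain rfl := DN_ters_inv h13
      exact h6 _ _ (ih m (by omega) B w8 h14) (ih m (by omega) C w4 h10)

theorem DW_two {g : ContextFreeGrammar T} {u v z : List T} {B C : g.NT} {w1 w2 : List T}
    (h1 : DW g [.nonterminal B] w1) (h2 : DW g [.nonterminal C] w2) :
    DW g (two u v z B C) (u ++ w1 ++ v ++ w2 ++ z) :=
  ((((DW.of_ters u).append h1).append (DW.of_ters v)).append h2).append (DW.of_ters z)

/-- rule for a short word -/
theorem GG_short [Finite T] {q : NN S M1} {w : List T} (h : Sem S L M1 q w) (hw : w.length ≤ M2)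
    (hl : ∃ x ∈ L, x.length = w.length) : DW (GG S L i j k M2 M1) [.nonterminal q] w := by
  have hr : (⟨q, w.map .terminal⟩ : ContextFreeRule T (NN S M1)) ∈ (GG S L i j k M2 M1).rules :=
    GG_rule.2 (Or.inl ⟨w, rfl, h, hw, hl⟩)
  exact DW.single hr (DW.of_ters w)

theorem GG_two [Finite T] {q B C : NN S M1} {u v z w1 w2 : List T} (hu : u.length = i)
    (hv : v.length = j) (hz : z.length = k)
    (h : ∀ y1 y2, Sem S L M1 B y1 → Sem S L M1 C y2 → Sem S L M1 q (u ++ y1 ++ v ++ y2 ++ z))
    (h1 : DW (GG S L i j k M2 M1) [.nonterminal B] w1)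
    (h2 : DW (GG S L i j k M2 M1) [.nonterminal C] w2) :
    DW (GG S L i j k M2 M1) [.nonterminal q] (u ++ w1 ++ v ++ w2 ++ z) := by
  have hr : (⟨q, two u v z B C⟩ : ContextFreeRule T (NN S M1)) ∈ (GG S L i j k M2 M1).rules :=
    GG_rule.2 (Or.inr ⟨u, v, z, B, C, hu, hv, hz, rfl, h⟩)
  exact DW.single hr (DW_two h1 h2)

end

theorem main (i j k : ℕ) (T : Type) [Finite T] (L : Language T) (hL : L.IsContextFree) :
    ∃ g : ContextFreeGrammar T, g.language = L ∧
      ∀ r ∈ g.rules, (∃ w : List T, r.output = w.map .terminal ∧ ∃ x ∈ L, x.length = w.length) ∨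
        (∃ (u v z : List T) (B C : g.NT), u.length = i ∧ v.length = j ∧ z.length = k ∧
          r.output = two u v z B C) := by
  obtain ⟨g0, rfl⟩ := hL
  obtain ⟨S, b0, hS⟩ := exists_sys g0
  obtain ⟨N0, d, hd, hN0, hpump⟩ := pumping S
  set L := g0.language with hLdef
  suffices H : ∃ M2 M1, (GG S L i j k M2 M1).language = L by
    obtain ⟨M2, M1, H⟩ := H
    refine ⟨GG S L i j k M2 M1, H, ?_⟩
    intro r hr
    have hr' : r ∈ Rules S L i j k M2 M1 := GG_rule.1 hr
    rcases hr' with ⟨w', h5, _, _, h6⟩ | ⟨u, v, z, B, C, hu, hv, hz, h5, _⟩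
    · exact Or.inl ⟨w', h5, h6⟩
    · exact Or.inr ⟨u, v, z, B, C, hu, hv, hz, h5⟩
  by_cases hbd : ∀ w ∈ L, w.length < N0
  · refine ⟨N0, 0, ?_⟩
    ext w
    rw [mem_language]
    constructor
    · rintro ⟨n, h⟩
      exact GG_sound n none w h
    · intro hw
      exact GG_short (q := none) hw (hbd w hw).le ⟨w, hw, rfl⟩
  · push Not at hbd
    obtain ⟨w0, hw0, hlen0⟩ := hbd
    let E : ℕ → Prop := fun n => ∃ x ∈ L, x ≠ [] ∧ x.length = n
    have hEpos : ∀ n, E n → 0 < n := by
      rintro n ⟨x, _, h1, rfl⟩
      exact List.length_pos_iff.2 h1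
    have hE : ∀ n, E n → N0 ≤ n → E (n + d) := by
      rintro n ⟨x, hx, h1, rfl⟩ hn
      obtain ⟨w', h2, h3⟩ := hpump b0 x ((hS x).2 ⟨hx, h1⟩) hn
      obtain ⟨h4, h5⟩ := (hS w').1 h2
      exact ⟨w', h4, h5, h3⟩
    have hr0 : E w0.length := ⟨w0, hw0, by rintro rfl; simp at hlen0; omega, rfl⟩
    obtain ⟨N2, hN2, hgood1, hgood2⟩ := good_lengths (s := i + j + k) hd hE hr0 hlen0
    let M2 := 2 * (N2 + i + j + k + d + 1)
    let M1 := M2 + 2 * (2 * i + 3 * d + 2 * k + 2 * j + 1)
    refine ⟨M2, M1, ?_⟩
    have key : ∀ (n : ℕ) (w : List T), w.length = n → Dl E (i + j + k) n →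
        ∀ γ : {γ : List (En S.B T) // γ.length ≤ M1}, FL S γ.1 w →
          DW (GG S L i j k M2 M1) [.nonterminal (some γ)] w := by
      intro n
      induction n using Nat.strong_induction_on with
      | _ n ih =>
        intro w hn hD γ hγ
        by_cases hshort : n < M2
        · cases hD with
          | base hE0 =>
            obtain ⟨x, hx, _, hxl⟩ := hE0
            exact GG_short (q := some γ) hγ (by omega) ⟨x, hx, by omega⟩
          | @add a b ha hb =>
            have ha0 := Dl_pos hEpos ha
            have hb0 := Dl_pos hEpos hb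
            obtain ⟨u, w1, v, w2, z, hw, hu, hw1, hv, hw2, hz⟩ :
                ∃ u w1 v w2 z, w = u ++ w1 ++ v ++ w2 ++ z ∧ u.length = i ∧ w1.length = a ∧
                  v.length = j ∧ w2.length = b ∧ z.length = k := by
              refine ⟨w.take i, (w.drop i).take a, ((w.drop i).drop a).take j,
                (((w.drop i).drop a).drop j).take b, (((w.drop i).drop a).drop j).drop b,
                ?_, ?_, ?_, ?_, ?_, ?_⟩
              · simp only [List.append_assoc, List.take_append_drop]
              all_goals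
                simp only [List.length_take, List.length_drop]
                omega
            subst hw
            have hM : M2 ≤ M1 := Nat.le_add_right _ _
            let γ1 : {γ : List (En S.B T) // γ.length ≤ M1} :=
              ⟨w1.map .t, by rw [List.length_map]; omega⟩
            let γ2 : {γ : List (En S.B T) // γ.length ≤ M1} :=
              ⟨w2.map .t, by rw [List.length_map]; omega⟩
            refine GG_two (q := some γ) (B := some γ1) (C := some γ2) hu hv hz ?_
              (ih a (by omega) w1 hw1 ha γ1 FL_ters) (ih b (by omega) w2 hw2 hb γ2 FL_ters)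
            intro y1 y2 hy1 hy2
            have h1 : y1 = w1 := FL_ters_inv hy1
            have h2 : y2 = w2 := FL_ters_inv hy2
            rw [h1, h2]
            exact hγ
        · obtain ⟨u, w1, v, w2, z, γ1, γ2, rfl, hu, hv, hz, h1, h2, h3, h4, h5, h6, h7, h8⟩ :=
            splitting i j k d N2 M2 M1 hd le_rfl le_rfl γ.2 hγ (by omega)
          have hlen : (u ++ w1 ++ v ++ w2 ++ z).length = w1.length + w2.length + (i + j + k) := by
            simp only [List.length_append]; omega
          have hD1 : Dl E (i + j + k) w1.length := hgood1 _ h5 h7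
          have hD2 : Dl E (i + j + k) w2.length := by
            refine hgood2 _ n h6 hD ?_
            have e : n = (w1.length + (i + j + k)) + w2.length := by omega
            rw [e, Nat.add_mod, h7]
            simp
          exact GG_two (q := some γ) (B := some ⟨γ1, h3⟩) (C := some ⟨γ2, h4⟩) hu hv hz h8
            (ih _ (by omega) w1 rfl hD1 ⟨γ1, h3⟩ h1) (ih _ (by omega) w2 rfl hD2 ⟨γ2, h4⟩ h2)
    ext w
    rw [mem_language]
    constructor
    · rintro ⟨n, h⟩
      exact GG_sound n none w h
    · intro hw
      by_cases hshort : w.length < M2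
      · exact GG_short (q := none) hw hshort.le ⟨w, hw, rfl⟩
      · have hne : w ≠ [] := by
          rintro rfl
          apply hshort
          simp only [List.length_nil, M2]
          omega
        have hFL : FL S [.b b0] w := FL_one.2 ((hS w).2 ⟨hw, hne⟩)
        obtain ⟨u, w1, v, w2, z, γ1, γ2, rfl, hu, hv, hz, h1, h2, h3, h4, h5, h6, h7, h8⟩ :=
            splitting i j k d N2 M2 M1 hd le_rfl le_rfl (γ := [.b b0])
              (by simp only [List.length_cons, List.length_nil, M1, M2]; omega) hFL (by omega)
        have hD : Dl E (i + j + k) (u ++ w1 ++ v ++ w2 ++ z).length :=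
          Dl.base ⟨_, hw, hne, rfl⟩
        have hlen : (u ++ w1 ++ v ++ w2 ++ z).length = w1.length + w2.length + (i + j + k) := by
          simp only [List.length_append]; omega
        have hD1 : Dl E (i + j + k) w1.length := hgood1 _ h5 h7
        have hD2 : Dl E (i + j + k) w2.length := by
          refine hgood2 _ _ h6 hD ?_
          have e : (u ++ w1 ++ v ++ w2 ++ z).length = (w1.length + (i + j + k)) + w2.length := by
            omega
          rw [e, Nat.add_mod, h7]
          simp
        refine GG_two (q := none) (B := some ⟨γ1, h3⟩) (C := some ⟨γ2, h4⟩) hu hv hz ?_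
          (key _ w1 rfl hD1 ⟨γ1, h3⟩ h1) (key _ w2 rfl hD2 ⟨γ2, h4⟩ h2)
        intro y1 y2 hy1 hy2
        have h9 := h8 y1 y2 hy1 hy2
        rw [FL_one] at h9
        exact ((hS _).1 h9).1

end Pool.Agent.H639R2.NF
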