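import Pool.Agent.H639R2.NF.Split

/-! Pumping of lengths, and the set of good lengths. -/

set_option autoImplicit false

namespace Pool.Agent.H639R2.NF

variable {T : Type} (S : Sys T)

/-- context lengths -/
def CL (b b' : S.B) (n : ℕ) : Prop := ∀ v, S.La b' v → ∃ w, S.La b w ∧ w.length = v.length + n

variable {S}

theorem CL.trans {b b' b'' : S.B} {n m : ℕ} (h1 : CL S b b' n) (h2 : CL S b' b'' m) :
    CL S b b'' (n + m) := by
  intro v hv
  obtain ⟨w, hw, hl⟩ := h2 v hv
  obtain ⟨w', hw', hl'⟩ := h1 w hw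
  exact ⟨w', hw', by omega⟩

theorem CL.iter {b : S.B} {n : ℕ} (h : CL S b b n) (t : ℕ) : CL S b b (t * n) := by
  induction t with
  | zero => intro v hv; exact ⟨v, hv, by simp⟩
  | succ t ih =>
    have := ih.trans h
    rwa [← Nat.succ_mul] at this

theorem heavy {b : S.B} {w : List T} (h : S.La b w) (hw : 2 ≤ w.length) :
    ∃ b' w', S.La b' w' ∧ w'.length < w.length ∧ w.length ≤ 2 * w'.length ∧
      CL S b b' (w.length - w'.length) := by
  obtain ⟨b1, b2, x1, x2, rfl, h1, h2, h3⟩ := S.sp b w h hw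
  have n1 : x1.length ≠ 0 := fun h => S.ne _ _ h1 (List.eq_nil_of_length_eq_zero h)
  have n2 : x2.length ≠ 0 := fun h => S.ne _ _ h2 (List.eq_nil_of_length_eq_zero h)
  rw [List.length_append]
  by_cases hle : x1.length ≤ x2.length
  · refine ⟨b2, x2, h2, by omega, by omega, ?_⟩
    intro v hv
    exact ⟨x1 ++ v, h3 _ _ h1 hv, by rw [List.length_append]; omega⟩
  · refine ⟨b1, x1, h1, by omega, by omega, ?_⟩
    intro v hv
    exact ⟨v ++ x2, h3 _ _ hv h2, by rw [List.length_append]; omega⟩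

theorem descend (m : ℕ) : ∀ (n : ℕ) (b : S.B) (w : List T), w.length = n → S.La b w →
    2 ^ m ≤ w.length → ∃ b' w', S.La b' w' ∧ 2 ^ m ≤ w'.length ∧ w'.length < 2 ^ (m + 1) ∧
      w'.length ≤ w.length ∧ CL S b b' (w.length - w'.length) := by
  intro n
  induction n using Nat.strong_induction_on with
  | _ n ih =>
    intro b w hn hw h
    by_cases hlt : w.length < 2 ^ (m + 1)
    · exact ⟨b, w, hw, h, hlt, le_rfl, fun v hv => ⟨v, hv, by simp⟩⟩
    · have h2 : 2 ≤ w.length := by
        have : 2 ≤ 2 ^ (m + 1) := by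
          rw [pow_succ]; have := Nat.one_le_two_pow (n := m); omega
        omega
      obtain ⟨b', w', h3, h4, h5, h6⟩ := heavy hw h2
      have h7 : 2 ^ m ≤ w'.length := by
        rw [pow_succ] at hlt; omega
      obtain ⟨b'', w'', h8, h9, h10, h11, h12⟩ := ih w'.length (by omega) b' w' rfl h3 h7
      refine ⟨b'', w'', h8, h9, h10, by omega, ?_⟩
      have := h6.trans h12
      have e : w.length - w'.length + (w'.length - w''.length) = w.length - w''.length := by omega
      rwa [e] at this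

theorem path (m : ℕ) : ∀ (b : S.B) (w : List T), S.La b w → 2 ^ m ≤ w.length →
    ∃ (bs : ℕ → S.B) (ws : ℕ → List T), bs 0 = b ∧ ws 0 = w ∧
      (∀ k, k ≤ m → S.La (bs k) (ws k)) ∧
      ∀ k, k < m → (ws (k + 1)).length < (ws k).length ∧
        CL S (bs k) (bs (k + 1)) ((ws k).length - (ws (k + 1)).length) := by
  induction m with
  | zero =>
    intro b w hw _
    exact ⟨fun _ => b, fun _ => w, rfl, rfl, fun _ _ => hw, fun k hk => by omega⟩
  | succ m ih =>
    intro b w hw h
    have h1 := Nat.one_le_two_pow (n := m)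
    rw [pow_succ] at h
    obtain ⟨b', w', h3, h4, h5, h6⟩ := heavy hw (by omega)
    obtain ⟨bs, ws, h7, h8, h9, h10⟩ := ih b' w' h3 (by omega)
    refine ⟨fun k => match k with | 0 => b | k + 1 => bs k,
      fun k => match k with | 0 => w | k + 1 => ws k, rfl, rfl, ?_, ?_⟩
    · intro k hk
      cases k with
      | zero => exact hw
      | succ k => exact h9 k (by omega)
    · intro k hk
      cases k with
      | zero =>
        dsimp only
        rw [h7, h8]
        exact ⟨h4, h6⟩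
      | succ k => exact h10 k (by omega)

theorem path_le {bs : ℕ → S.B} {ws : ℕ → List T} {m : ℕ}
    (h : ∀ k, k < m → (ws (k + 1)).length < (ws k).length ∧
        CL S (bs k) (bs (k + 1)) ((ws k).length - (ws (k + 1)).length)) (p : ℕ) :
    ∀ q, p + q ≤ m → (ws (p + q)).length + q ≤ (ws p).length ∧
      CL S (bs p) (bs (p + q)) ((ws p).length - (ws (p + q)).length) := by
  intro q
  induction q with
  | zero => intro _; exact ⟨le_rfl, fun v hv => ⟨v, hv, by simp⟩⟩
  | succ q ih =>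
    intro hq
    obtain ⟨h1, h2⟩ := ih (by omega)
    obtain ⟨h3, h4⟩ := h (p + q) (by omega)
    rw [show p + (q + 1) = p + q + 1 from rfl]
    refine ⟨by omega, ?_⟩
    have := h2.trans h4
    have e : (ws p).length - (ws (p + q)).length + ((ws (p + q)).length - (ws (p + q + 1)).length) =
      (ws p).length - (ws (p + q + 1)).length := by omega
    rwa [e] at this

variable (S)

theorem pumping : ∃ N0 d, 0 < d ∧ 0 < N0 ∧ ∀ (b : S.B) (w : List T), S.La b w → N0 ≤ w.length →
    ∃ w', S.La b w' ∧ w'.length = w.length + d := by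
  classical
  have : Finite S.B := S.fin
  let _ : Fintype S.B := Fintype.ofFinite _
  let m := Fintype.card S.B
  refine ⟨2 ^ m, (2 ^ (m + 1)).factorial, Nat.factorial_pos _, Nat.two_pow_pos _, ?_⟩
  intro b w hw hlen
  obtain ⟨b', w', h1, h2, h3, h4, h5⟩ := descend m _ b w rfl hw hlen
  obtain ⟨bs, ws, h6, h7, h8, h9⟩ := path m b' w' h1 h2
  obtain ⟨p, q, hpq, heq⟩ : ∃ p q : ℕ, p < q ∧ q ≤ m ∧ bs p = bs q := by
    obtain ⟨p, q, hne, heq⟩ := Fintype.exists_ne_map_eq_of_card_lt (fun i : Fin (m + 1) => bs i)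
      (by simp [m])
    rcases lt_or_gt_of_ne hne with h | h
    · exact ⟨p, q, h, by omega, heq⟩
    · exact ⟨q, p, h, by omega, heq.symm⟩
  obtain ⟨hqm, heq⟩ := heq
  obtain ⟨r, rfl⟩ : ∃ r, q = p + r := ⟨q - p, by omega⟩
  obtain ⟨h10, h11⟩ := path_le h9 p r hqm
  obtain ⟨h12, h13⟩ := path_le h9 0 p (by omega)
  rw [Nat.zero_add, h6, h7] at h13
  rw [Nat.zero_add, h7] at h12
  rw [← heq] at h11
  set e := (ws p).length - (ws (p + r)).length with he
  have he1 : 0 < e := by omega
  have he2 : e ≤ 2 ^ (m + 1) := by omega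
  obtain ⟨t, ht⟩ := Nat.dvd_factorial he1 he2
  obtain ⟨x, hx, hxl⟩ := h11.iter t _ (h8 p (by omega))
  obtain ⟨y, hy, hyl⟩ := h13 x hx
  obtain ⟨z, hz, hzl⟩ := h5 y hy
  refine ⟨z, hz, ?_⟩
  have : t * e = (2 ^ (m + 1)).factorial := by rw [ht, Nat.mul_comm]
  omega

/-! ### good lengths -/

/-- lengths of sentences that can be split into words with lengths in `E` -/
inductive Dl (E : ℕ → Prop) (s : ℕ) : ℕ → Prop
  | base {n : ℕ} : E n → Dl E s n
  | add {a b : ℕ} : Dl E s a → Dl E s b → Dl E s (a + b + s)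

theorem Dl_pos {E : ℕ → Prop} {s : ℕ} (hE : ∀ n, E n → 0 < n) {n : ℕ} (h : Dl E s n) : 0 < n := by
  induction h with
  | base h => exact hE _ h
  | add _ _ ih1 ih2 => omega

theorem good_lengths {E : ℕ → Prop} {s N0 d r0 : ℕ} (hd : 0 < d)
    (hE : ∀ n, E n → N0 ≤ n → E (n + d)) (hr0 : E r0) (hr1 : N0 ≤ r0) :
    ∃ N2, 0 < N2 ∧ (∀ n, N2 ≤ n → (n + s) % d = 0 → Dl E s n) ∧
      ∀ n m, N2 ≤ n → Dl E s m → n % d = m % d → Dl E s n := by
  have h1 : ∀ t, E (r0 + t * d) := by
    intro t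
    induction t with
    | zero => simpa using hr0
    | succ t ih =>
      have := hE _ ih (by omega)
      have e : r0 + t * d + d = r0 + (t + 1) * d := by ring
      rwa [e] at this
  have h2 : ∀ m q, Dl E s m → Dl E s (m + q * (r0 + s)) := by
    intro m q hm
    induction q with
    | zero => simpa using hm
    | succ q ih =>
      have := Dl.add ih (Dl.base hr0)
      have e : m + q * (r0 + s) + r0 + s = m + (q + 1) * (r0 + s) := by ring
      rwa [e] at this
  have h3 : ∀ m t, Dl E s m → Dl E s (m + d * (r0 + s) + t * d) := by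
    intro m t hm
    have := Dl.add (h2 m (d - 1) hm) (Dl.base (h1 t))
    have e : m + (d - 1) * (r0 + s) + (r0 + t * d) + s = m + d * (r0 + s) + t * d := by
      obtain ⟨d', rfl⟩ : ∃ d', d = d' + 1 := ⟨d - 1, by omega⟩
      simp only [Nat.add_sub_cancel]
      ring
    rwa [e] at this
  have h4 : ∀ m n, Dl E s m → m + d * (r0 + s) ≤ n → n % d = m % d → Dl E s n := by
    intro m n hm hle hmod
    have e1 : (m + d * (r0 + s)) % d = m % d := by simp
    have e2 : (n - (m + d * (r0 + s))) % d = 0 := Nat.sub_mod_eq_zero_of_mod_eq (by rw [e1, hmod])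
    have e3 := Nat.div_add_mod (n - (m + d * (r0 + s))) d
    rw [e2] at e3
    have := h3 m ((n - (m + d * (r0 + s))) / d) hm
    have e4 : m + d * (r0 + s) + (n - (m + d * (r0 + s))) / d * d = n := by
      rw [Nat.mul_comm ((n - (m + d * (r0 + s))) / d) d]; omega
    rwa [e4] at this
  -- the zero class
  have h5 : ∀ n, r0 + 2 * d * (r0 + s) ≤ n → (n + s) % d = 0 → Dl E s n := by
    intro n hn hmod
    refine h4 (r0 + (d - 1) * (r0 + s)) n (h2 _ _ (Dl.base hr0)) ?_ ?_
    · have : (d - 1) * (r0 + s) ≤ d * (r0 + s) := Nat.mul_le_mul_right _ (by omega)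
      have e : 2 * d * (r0 + s) = d * (r0 + s) + d * (r0 + s) := by ring
      omega
    · have e : r0 + (d - 1) * (r0 + s) + s = d * (r0 + s) := by
        obtain ⟨d', rfl⟩ : ∃ d', d = d' + 1 := ⟨d - 1, by omega⟩
        simp only [Nat.add_sub_cancel]
        ring
      have e2 : (r0 + (d - 1) * (r0 + s) + s) % d = 0 := by rw [e]; simp
      have h6 : n + s ≡ r0 + (d - 1) * (r0 + s) + s [MOD d] := by
        rw [Nat.ModEq, hmod, e2]
      exact Nat.ModEq.add_right_cancel' s h6
  -- all residues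
  have h6 : ∀ ρ : Fin d, ∃ N, ∀ n m, N ≤ n → Dl E s m → m % d = ρ → n % d = m % d → Dl E s n := by
    intro ρ
    by_cases hex : ∃ m, Dl E s m ∧ m % d = ρ
    · obtain ⟨m0, hm0, hm1⟩ := hex
      refine ⟨m0 + d * (r0 + s), fun n m hn _ hm hnm => h4 m0 n hm0 hn ?_⟩
      rw [hnm, hm, hm1]
    · exact ⟨0, fun n m _ hm hρ _ => (hex ⟨m, hm, hρ⟩).elim⟩
  choose N hN using h6
  refine ⟨r0 + 2 * d * (r0 + s) + 1 + Finset.univ.sup N, by omega, ?_, ?_⟩
  · intro n hn hmod
    exact h5 n (by omega) hmod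
  · intro n m hn hm hnm
    have hle : N ⟨m % d, Nat.mod_lt _ hd⟩ ≤ Finset.univ.sup N :=
      Finset.le_sup (f := N) (Finset.mem_univ _)
    exact hN ⟨m % d, Nat.mod_lt _ hd⟩ n m (by omega) hm rfl hnm

end Pool.Agent.H639R2.NF
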