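import Pool.Agent.H639R2.NF.Ext

/-! The splitting of words of forms. -/

set_option autoImplicit false

namespace Pool.Agent.H639R2.NF

variable {T : Type} {S : Sys T}

theorem refine_one {γ : List (En S.B T)} {w : List T} (h : FL S γ w) (hw : γ.length < w.length) :
    ∃ γ', Ref S γ γ' ∧ FL S γ' w ∧ γ'.length = γ.length + 1 := by
  induction h with
  | nil => simp at hw
  | @cons e γ x w h1 h2 ih =>
    by_cases hx : 2 ≤ x.length
    · obtain ⟨e1, e2, x1, x2, rfl, h3, h4, h5⟩ := sem_sp e x h1 hx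
      refine ⟨e1 :: e2 :: γ, ?_, ?_, by simp⟩
      · intro y hy
        obtain ⟨y1, y2, rfl, h6, h7⟩ := FL.split (γ := [e1]) hy
        obtain ⟨y3, y4, rfl, h8, h9⟩ := FL.split (γ := [e2]) h7
        rw [← List.append_assoc]
        exact FL.cons (h5 _ _ (FL_one.1 h6) (FL_one.1 h8)) h9
      · rw [List.append_assoc]
        exact FL.cons h3 (FL.cons h4 h2)
    · rw [List.length_cons, List.length_append] at hw
      obtain ⟨γ', h3, h4, h5⟩ := ih (by omega)
      exact ⟨e :: γ', h3.cons e, FL.cons h1 h4, by simp [h5]⟩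

theorem refine_to {γ : List (En S.B T)} {w : List T} (h : FL S γ w) {m : ℕ} (h1 : γ.length ≤ m)
    (h2 : m ≤ w.length) : ∃ γ', Ref S γ γ' ∧ FL S γ' w ∧ γ'.length = m := by
  induction m, h1 using Nat.le_induction with
  | base => exact ⟨γ, Ref.refl _, h, rfl⟩
  | succ m hm ih =>
    obtain ⟨γ', h3, h4, h5⟩ := ih (by omega)
    obtain ⟨γ'', h6, h7, h8⟩ := refine_one h4 (by omega)
    exact ⟨γ'', h3.trans h6, h7, by omega⟩

theorem expLn {γ : List (En S.B T)} {w : List T} (h : FL S γ w) {n : ℕ} (hn : n ≤ w.length) :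
    ∃ (u : List T) (γ' : List (En S.B T)), u.length = n ∧ FL S (u.map .t ++ γ') w ∧
      Ref S γ (u.map .t ++ γ') ∧ γ'.length ≤ γ.length + 2 * n := by
  induction n with
  | zero => exact ⟨[], γ, rfl, h, Ref.refl _, by simp⟩
  | succ n ih =>
    obtain ⟨u, γ', h1, h2, h3, h4⟩ := ih (by omega)
    obtain ⟨w1, w2, rfl, h5, h6⟩ := h2.split
    obtain rfl := FL_ters_inv h5
    cases h6 with
    | nil => simp at hn; omega
    | @cons e γ'' x w' h7 h8 =>
      obtain ⟨c, δ, h9, h10, h11⟩ := expL e x h7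
      refine ⟨w1 ++ [c], δ ++ γ'', by simp [h1], ?_, ?_, ?_⟩
      · rw [List.map_append, List.append_assoc]
        refine FL.append FL_ters ?_
        exact FL.append (γ := .t c :: δ) h10 h8
      · refine h3.trans ?_
        rw [List.map_append, List.append_assoc]
        refine Ref.append (Ref.refl _) ?_
        exact Ref.append (γ := [e]) (γ' := .t c :: δ) h11 (Ref.refl _)
      · rw [List.length_append]
        rw [List.length_cons] at h4
        omega

theorem expRn {γ : List (En S.B T)} {w : List T} (h : FL S γ w) {n : ℕ} (hn : n ≤ w.length) :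
    ∃ (u : List T) (γ' : List (En S.B T)), u.length = n ∧ FL S (γ' ++ u.map .t) w ∧
      Ref S γ (γ' ++ u.map .t) ∧ γ'.length ≤ γ.length + 2 * n := by
  induction n with
  | zero => exact ⟨[], γ, rfl, by simpa using h, by simpa using Ref.refl γ, by simp⟩
  | succ n ih =>
    obtain ⟨u, γ', h1, h2, h3, h4⟩ := ih (by omega)
    obtain ⟨w1, w2, rfl, h5, h6⟩ := h2.split
    obtain rfl := FL_ters_inv h6
    rcases List.eq_nil_or_concat γ' with rfl | ⟨γ'', e, rfl⟩
    · cases h5; simp at hn; omega
    · rw [List.concat_eq_append] at *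
      obtain ⟨w3, w4, rfl, h7, h8⟩ := h5.split
      rw [FL_one] at h8
      obtain ⟨c, δ, h9, h10, h11⟩ := expR e w4 h8
      refine ⟨c :: w2, γ'' ++ δ, by simp [h1], ?_, ?_, ?_⟩
      · have := (h7.append h10).append (FL_ters (S := S) (u := w2))
        simpa using this
      · refine h3.trans ?_
        have := (Ref.append (Ref.refl γ'') h11).append (Ref.refl (S := S) (w2.map .t))
        simpa using this
      · simp only [List.length_append, List.length_cons, List.length_nil] at h4 ⊢
        omega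

theorem exists_res (d : ℕ) (hd : 0 < d) (a : ℕ) : ∃ t, t < d ∧ (a + t) % d = 0 := by
  refine ⟨(d - a % d) % d, Nat.mod_lt _ hd, ?_⟩
  have h1 := Nat.mod_lt a hd
  rcases Nat.eq_zero_or_pos (a % d) with h | h
  · rw [h]; simp [h]
  · rw [Nat.mod_eq_of_lt (by omega : d - a % d < d)]
    have h2 := Nat.div_add_mod a d
    have h3 : a + (d - a % d) = d * (a / d + 1) := by
      rw [Nat.mul_add, Nat.mul_one]; omega
    rw [h3]; simp

theorem splitting (i j k d N2 M2 M1 : ℕ) (hd : 0 < d)
    (hM2 : 2 * (N2 + i + j + k + d + 1) ≤ M2)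
    (hM1 : M2 + 2 * (2 * i + 3 * d + 2 * k + 2 * j + 1) ≤ M1)
    {γ : List (En S.B T)} {w : List T} (hγ : γ.length ≤ M1) (h : FL S γ w) (hw : M2 ≤ w.length) :
    ∃ (u w1 v w2 z : List T) (γ1 γ2 : List (En S.B T)),
      w = u ++ w1 ++ v ++ w2 ++ z ∧ u.length = i ∧ v.length = j ∧ z.length = k ∧
      FL S γ1 w1 ∧ FL S γ2 w2 ∧ γ1.length ≤ M1 ∧ γ2.length ≤ M1 ∧
      N2 ≤ w1.length ∧ N2 ≤ w2.length ∧ (w1.length + (i + j + k)) % d = 0 ∧
      ∀ y1 y2, FL S γ1 y1 → FL S γ2 y2 → FL S γ (u ++ y1 ++ v ++ y2 ++ z) := by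
  have hle := FL_length h
  obtain ⟨γs, hr, hs, hm⟩ := refine_to h (m := max γ.length M2) (le_max_left _ _)
    (max_le hle hw)
  set m := max γ.length M2 with hmdef
  have hm1 : m ≤ M1 := max_le hγ (by omega)
  have hm2 : M2 ≤ m := le_max_right _ _
  -- cut in the middle
  obtain ⟨γa, γb, rfl, hla⟩ : ∃ γa γb, γs = γa ++ γb ∧ γa.length = m / 2 :=
    ⟨γs.take (m / 2), γs.drop (m / 2), (List.take_append_drop _ _).symm, by
      rw [List.length_take]; omega⟩
  have hlb : γb.length = m - m / 2 := by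
    rw [List.length_append] at hm; omega
  obtain ⟨wa, wb, rfl, ha, hb⟩ := hs.split
  have hwa := FL_length ha
  have hwb := FL_length hb
  -- left end
  obtain ⟨u, γa', hu, ha1, ha2, ha3⟩ := expLn ha (n := i) (by omega)
  obtain ⟨u', wa', hwa', hu', ha4⟩ := ha1.split
  obtain rfl := FL_ters_inv hu'
  -- right end
  obtain ⟨z, γb', hz, hb1, hb2, hb3⟩ := expRn hb (n := k) (by omega)
  obtain ⟨wb', z', hwb', hb4, hz'⟩ := hb1.split
  obtain rfl := FL_ters_inv hz'
  -- middle
  have hlwb : wb.length = wb'.length + k := by rw [hwb', List.length_append, hz]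
  have hlwa : wa.length = i + wa'.length := by rw [hwa', List.length_append, hu]
  obtain ⟨e, γb'', he, hb5, hb6, hb7⟩ := expLn hb4 (n := j + d) (by omega)
  obtain ⟨e', wb'', hwb'', he', hb8⟩ := hb5.split
  obtain rfl := FL_ters_inv he'
  have hlwb' : wb'.length = (j + d) + wb''.length := by rw [hwb'', List.length_append, he]
  obtain ⟨t, ht, htt⟩ := exists_res d hd (wa'.length + (i + j + k))
  -- split e
  obtain ⟨e1, v, e2, rfl, he1, hv⟩ : ∃ e1 v e2, e' = e1 ++ v ++ e2 ∧ e1.length = t ∧
      v.length = j := by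
    refine ⟨e'.take t, (e'.drop t).take j, (e'.drop t).drop j, ?_, ?_, ?_⟩
    · rw [List.append_assoc, List.take_append_drop, List.take_append_drop]
    · rw [List.length_take]; omega
    · rw [List.length_take, List.length_drop]; omega
  have he2 : e2.length ≤ d := by
    rw [List.length_append, List.length_append] at he; omega
  refine ⟨u', wa' ++ e1, v, e2 ++ wb'', z', γa' ++ e1.map .t, e2.map .t ++ γb'', ?_, hu, hv, hz,
    ha4.append FL_ters, FL_ters.append hb8, ?_, ?_, ?_, ?_, ?_, ?_⟩
  · rw [hwa', hwb', hwb'']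
    simp only [List.append_assoc]
  · rw [List.length_append, List.length_map]; omega
  · rw [List.length_append, List.length_map]; omega
  · rw [List.length_append]; omega
  · rw [List.length_append]; omega
  · rw [List.length_append, he1]
    have : wa'.length + t + (i + j + k) = wa'.length + (i + j + k) + t := by omega
    rw [this]; exact htt
  · intro y1 y2 hy1 hy2
    apply hr
    obtain ⟨y3, y4, rfl, h1, h2⟩ := hy1.split
    obtain rfl := FL_ters_inv h2
    obtain ⟨y5, y6, rfl, h3, h4⟩ := hy2.split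
    obtain rfl := FL_ters_inv h3
    have h5 : FL S γa (u' ++ y3) := ha2 _ (FL_ters.append h1)
    have h6 : FL S γb' (y4 ++ v ++ y5 ++ y6) := by
      apply hb6
      rw [List.map_append, List.map_append]
      exact ((FL_ters.append FL_ters).append FL_ters).append h4
    have h7 : FL S γb (y4 ++ v ++ y5 ++ y6 ++ z') := hb2 _ (h6.append FL_ters)
    have h8 := h5.append h7
    simpa using h8

end Pool.Agent.H639R2.NF
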